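import Mathlib

/-!
Definitions for `MP_c48b3b_lc`: distance sets, the Effros Borel space of nonempty closed subsets,
the Urysohn space, isometry relations and Borel reducibility.
-/

namespace PolishDist

open TopologicalSpace

/-- The distance set of a metric space. -/
def distSet (X : Type) [MetricSpace X] : Set ℝ := {r | ∃ x y : X, dist x y = r}

/-- The nonempty closed subsets of `U`. -/
def ClosedNonempty (U : Type) [MetricSpace U] : Type := {F : Set U // IsClosed F ∧ F.Nonempty}

/-- The Effros Borel structure on the nonempty closed subsets of `U`: the sigma-algebra generated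
by the sets of all `F` that meet `O`, for `O` open. -/
instance effros (U : Type) [MetricSpace U] : MeasurableSpace (ClosedNonempty U) :=
  MeasurableSpace.generateFrom
    {S | ∃ O : Set U, IsOpen O ∧ S = {F : ClosedNonempty U | (F.1 ∩ O).Nonempty}}

/-- `A` is the distance set of some (nonempty) Polish metric space. -/
def IsPolishDistSet (A : Set ℝ) : Prop :=
  ∃ (X : Type) (_ : MetricSpace X) (_ : CompleteSpace X) (_ : SeparableSpace X) (_ : Nonempty X),
    distSet X = A

/-- `U` is the Urysohn space: complete, separable, universal for separable metric spaces, and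
every isometric embedding of a finite subset extends to a surjective isometry of `U`. -/
structure IsUrysohn (U : Type) [MetricSpace U] : Prop where
  complete : CompleteSpace U
  separable : SeparableSpace U
  universal : ∀ (X : Type) [MetricSpace X] [SeparableSpace X], ∃ f : X → U, Isometry f
  homogeneous : ∀ (F : Set U), F.Finite → ∀ g : F → U, Isometry g →
    ∃ e : U ≃ᵢ U, ∀ x : F, e x = g x

/-- The spaces in `F(U)` with distances in `A`. -/
def VSub (U : Type) [MetricSpace U] (A : Set ℝ) : Set (ClosedNonempty U) :=
  {X | distSet X.1 ⊆ A}

/-- The spaces in `F(U)` with distance set exactly `A`. -/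
def VEq (U : Type) [MetricSpace U] (A : Set ℝ) : Set (ClosedNonempty U) :=
  {X | distSet X.1 = A}

/-- The isometry relation on a class of closed subsets of `U`. -/
def isoRel {U : Type} [MetricSpace U] (V : Set (ClosedNonempty U)) (X Y : V) : Prop :=
  Nonempty (X.1.1 ≃ᵢ Y.1.1)

/-- Borel reducibility of binary relations on Borel spaces. -/
def BorelReducible {X Y : Type} [MeasurableSpace X] [MeasurableSpace Y]
    (R : X → X → Prop) (S : Y → Y → Prop) : Prop :=
  ∃ f : X → Y, Measurable f ∧ ∀ x x' : X, R x x' ↔ S (f x) (f x')

/-- Borel bireducibility. -/
def BorelBireducible {X Y : Type} [MeasurableSpace X] [MeasurableSpace Y]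
    (R : X → X → Prop) (S : Y → Y → Prop) : Prop :=
  BorelReducible R S ∧ BorelReducible S R

end PolishDist
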