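import Pool.Agent.Work.MP_c48b3b_lc.GadgetEx
import Pool.Agent.Work.MP_c48b3b_lc.Defs

namespace PolishDist

open TopologicalSpace Metric

variable {U : Type} [MetricSpace U]

/-- chains with a prescribed number of steps -/
def ChainN {X : Type*} [MetricSpace X] (a : ℝ) : ℕ → X → X → Prop
  | 0, x, y => x = y
  | k + 1, x, y => ∃ x', dist x x' < a ∧ ChainN a k x' y

theorem chain_iff_chainN {X : Type*} [MetricSpace X] {a : ℝ} {x y : X} :
    Chain a x y ↔ ∃ k, ChainN a k x y := by
  constructor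
  · intro h
    induction h using Relation.ReflTransGen.head_induction_on with
    | refl => exact ⟨0, rfl⟩
    | head h _ ih =>
      obtain ⟨k, hk⟩ := ih
      exact ⟨k + 1, _, h, hk⟩
  · rintro ⟨k, hk⟩
    induction k generalizing x with
    | zero =>
      have : x = y := hk
      rw [this]
      exact Chain.refl _
    | succ k ih =>
      obtain ⟨x', h1, h2⟩ := hk
      exact (Chain.single h1).trans (ih h2)

theorem measurableSet_hit {O : Set U} (hO : IsOpen O) :
    MeasurableSet {F : ClosedNonempty U | (F.1 ∩ O).Nonempty} :=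
  MeasurableSpace.measurableSet_generateFrom ⟨O, hO, rfl⟩

theorem measurableSet_chainN [SecondCountableTopology U] (a : ℝ) (k : ℕ) {O O' : Set U}
    (hO : IsOpen O) (hO' : IsOpen O') :
    MeasurableSet {F : ClosedNonempty U | ∃ x y : F.1, (x : U) ∈ O ∧ (y : U) ∈ O' ∧
      ChainN a k x y} := by
  induction k generalizing O with
  | zero =>
    convert measurableSet_hit (hO.inter hO') using 1
    ext F
    constructor
    · rintro ⟨x, y, hx, hy, hxy⟩
      have : x = y := hxy
      subst this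
      exact ⟨x, x.2, hx, hy⟩
    · rintro ⟨x, hxF, hx, hy⟩
      exact ⟨⟨x, hxF⟩, ⟨x, hxF⟩, hx, hy, rfl⟩
  | succ k ih =>
    let P : Set (Set U × Set U) := {p | p.1 ∈ countableBasis U ∧ p.2 ∈ countableBasis U ∧
      p.1 ⊆ O ∧ ∀ y ∈ p.1, ∀ y' ∈ p.2, dist y y' < a}
    have hP : P.Countable := by
      refine ((countable_countableBasis U).prod (countable_countableBasis U)).mono ?_
      intro p hp
      exact ⟨hp.1, hp.2.1⟩
    have key : {F : ClosedNonempty U | ∃ x y : F.1, (x : U) ∈ O ∧ (y : U) ∈ O' ∧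
        ChainN a (k + 1) x y} = ⋃ p ∈ P, ({F : ClosedNonempty U | (F.1 ∩ p.1).Nonempty} ∩
        {F : ClosedNonempty U | ∃ x y : F.1, (x : U) ∈ p.2 ∧ (y : U) ∈ O' ∧ ChainN a k x y}) := by
      ext F
      simp only [Set.mem_iUnion, exists_prop]
      constructor
      · rintro ⟨x, y, hx, hy, x', hxx', hc⟩
        set δ := (a - dist x x') / 2 with hδ
        have hδ0 : 0 < δ := by rw [hδ]; linarith
        obtain ⟨B1, hB1, hxB1, hB1s⟩ := (isBasis_countableBasis U).exists_subset_of_mem_open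
          (show (x : U) ∈ O ∩ ball (x : U) δ from ⟨hx, mem_ball_self hδ0⟩)
          (hO.inter isOpen_ball)
        obtain ⟨B2, hB2, hxB2, hB2s⟩ := (isBasis_countableBasis U).exists_subset_of_mem_open
          (show (x' : U) ∈ ball (x' : U) δ from mem_ball_self hδ0) isOpen_ball
        refine ⟨(B1, B2), ⟨hB1, hB2, fun y hy => (hB1s hy).1, ?_⟩, ⟨x, x.2, hxB1⟩,
          ⟨x', y, hxB2, hy, hc⟩⟩
        intro y1 hy1 y2 hy2
        have e1 : dist y1 (x : U) < δ := (hB1s hy1).2
        have e2 : dist y2 (x' : U) < δ := hB2s hy2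
        have e3 : dist (x : U) (x' : U) = dist x x' := rfl
        have e4 : dist y1 y2 ≤ dist y1 (x : U) + dist (x : U) (x' : U) + dist (x' : U) y2 :=
          dist_triangle4 _ _ _ _
        have e5 : dist (x' : U) y2 = dist y2 (x' : U) := dist_comm _ _
        rw [e3, e5] at e4
        linarith
      · rintro ⟨p, ⟨hp1, hp2, hp3, hp4⟩, ⟨x, hxF, hx⟩, ⟨x', y, hx', hy, hc⟩⟩
        exact ⟨⟨x, hxF⟩, y, hp3 hx, hy, x', hp4 x hx x' hx', hc⟩
    rw [key]
    refine MeasurableSet.biUnion hP fun p hp => ?_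
    exact (measurableSet_hit (isOpen_of_mem_countableBasis hp.1)).inter
      (ih (isOpen_of_mem_countableBasis hp.2.1))

theorem measurableSet_chain [SecondCountableTopology U] (a : ℝ) {O O' : Set U}
    (hO : IsOpen O) (hO' : IsOpen O') :
    MeasurableSet {F : ClosedNonempty U | ∃ x y : F.1, (x : U) ∈ O ∧ (y : U) ∈ O' ∧
      Chain a x y} := by
  have : {F : ClosedNonempty U | ∃ x y : F.1, (x : U) ∈ O ∧ (y : U) ∈ O' ∧ Chain a x y} =
      ⋃ k : ℕ, {F : ClosedNonempty U | ∃ x y : F.1, (x : U) ∈ O ∧ (y : U) ∈ O' ∧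
        ChainN a k x y} := by
    ext F
    simp only [Set.mem_iUnion]
    constructor
    · rintro ⟨x, y, hx, hy, hc⟩
      obtain ⟨k, hk⟩ := chain_iff_chainN.1 hc
      exact ⟨k, x, y, hx, hy, hk⟩
    · rintro ⟨k, x, y, hx, hy, hk⟩
      exact ⟨x, y, hx, hy, chain_iff_chainN.2 ⟨k, hk⟩⟩
  rw [this]
  exact MeasurableSet.iUnion fun k => measurableSet_chainN a k hO hO'

theorem measurableSet_lab [SecondCountableTopology U] {u : ℕ → U} (hu : DenseRange u) {a : ℝ}
    (ha : 0 < a) {O : Set U} (hO : IsOpen O) (n : ℕ) :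
    MeasurableSet {F : ClosedNonempty U | ∃ x : F.1, (x : U) ∈ O ∧ lab u a F.1 x = n} := by
  have : {F : ClosedNonempty U | ∃ x : F.1, (x : U) ∈ O ∧ lab u a F.1 x = n} =
      {F : ClosedNonempty U | ∃ x y : F.1, (x : U) ∈ O ∧ (y : U) ∈ ball (u n) (a / 2) ∧
        Chain a x y} ∩ ⋂ m : Fin n, {F : ClosedNonempty U | ∃ x y : F.1,
        (x : U) ∈ ball (u m) (a / 2) ∧ (y : U) ∈ ball (u n) (a / 2) ∧ Chain a x y}ᶜ := by
    ext F
    simp only [Set.mem_inter_iff, Set.mem_iInter, Set.mem_compl_iff]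
    constructor
    · rintro ⟨x, hx, hn⟩
      obtain ⟨y, hy1, hy2⟩ := lab_spec hu ha x
      rw [hn] at hy1
      refine ⟨⟨x, y, hx, by rwa [mem_ball, dist_comm], hy2⟩, ?_⟩
      rintro ⟨m, hm⟩ ⟨y', y'', hy', hy'', hc⟩
      rw [mem_ball, dist_comm] at hy' hy''
      have h1 : Chain a x y' := hy2.trans ((chain_of_near hy1 hy'').trans hc.symm)
      have h2 : lab u a F.1 x ≤ m := Nat.sInf_le ⟨y', hy', h1⟩
      omega
    · rintro ⟨⟨x, y, hx, hy, hc⟩, hm⟩
      refine ⟨x, hx, ?_⟩
      have hy' := hy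
      rw [mem_ball, dist_comm] at hy'
      have h1 : lab u a F.1 x ≤ n := Nat.sInf_le ⟨y, hy', hc⟩
      rcases h1.lt_or_eq with h1 | h1
      · exfalso
        obtain ⟨y', hy1, hy2⟩ := lab_spec hu ha x
        exact hm ⟨_, h1⟩ ⟨y', y, by rwa [mem_ball, dist_comm], hy, hy2.symm.trans hc⟩
      · exact h1
  rw [this]
  refine (measurableSet_chain a hO isOpen_ball).inter (MeasurableSet.iInter fun m => ?_)
  exact (measurableSet_chain a isOpen_ball isOpen_ball).compl

variable {A : Set ℝ} {G : Gadget A}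

theorem measurableSet_MM [SecondCountableTopology U] {u : ℕ → U} (hu : DenseRange u)
    {O : Set (U × WSp G)} (hO : IsOpen O) :
    MeasurableSet {F : ClosedNonempty U | (MM G u F.1 ∩ O).Nonempty} := by
  have : SecondCountableTopology (WSp G) := UniformSpace.secondCountable_of_separable _
  let P : Set (Set U × Set (WSp G)) := {p | p.1 ∈ countableBasis U ∧
    p.2 ∈ countableBasis (WSp G) ∧ p.1 ×ˢ p.2 ⊆ O}
  have hP : P.Countable := by
    refine ((countable_countableBasis U).prod (countable_countableBasis (WSp G))).mono ?_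
    intro p hp
    exact ⟨hp.1, hp.2.1⟩
  have key : {F : ClosedNonempty U | (MM G u F.1 ∩ O).Nonempty} =
      ⋃ p ∈ P, ⋃ n ∈ {n : ℕ | ∃ w ∈ p.2, w.n = n},
        {F : ClosedNonempty U | ∃ x : F.1, (x : U) ∈ p.1 ∧ lab u G.a F.1 x = n} := by
    ext F
    simp only [Set.mem_iUnion, exists_prop]
    constructor
    · rintro ⟨⟨x, w⟩, ⟨hx, hn⟩, hO'⟩
      obtain ⟨s, hs, hxs, hsO⟩ := (isBasis_countableBasis U).prod
        (isBasis_countableBasis (WSp G)) |>.exists_subset_of_mem_open hO' hO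
      obtain ⟨s1, hs1, s2, hs2, rfl⟩ := hs
      exact ⟨(s1, s2), ⟨hs1, hs2, hsO⟩, w.n, ⟨w, hxs.2, rfl⟩, ⟨x, hx⟩, hxs.1, hn.symm⟩
    · rintro ⟨p, ⟨hp1, hp2, hp3⟩, n, ⟨w, hw, hwn⟩, x, hx, hn⟩
      refine ⟨(x, w), ⟨x.2, ?_⟩, hp3 ⟨hx, hw⟩⟩
      change w.n = lab u G.a F.1 x
      rw [hn, hwn]
  rw [key]
  refine MeasurableSet.biUnion hP fun p hp => MeasurableSet.biUnion (Set.to_countable _) ?_
  intro n _
  exact measurableSet_lab hu G.apos (isOpen_of_mem_countableBasis hp.1) n

/-- image of a set under an isometry -/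
noncomputable def imageIso {T T' : Type*} [MetricSpace T] [MetricSpace T'] {e : T → T'}
    (he : Isometry e) (S : Set T) : S ≃ᵢ (e '' S) where
  toEquiv := Equiv.Set.image e S he.injective
  isometry_toFun := Isometry.of_dist_eq fun _ _ => he.dist_eq _ _

/-- Full positive answer, for every complete separable universal space. -/
theorem main (U : Type) [MetricSpace U] [CompleteSpace U] [SeparableSpace U]
    (huniv : ∀ (X : Type) [MetricSpace X] [SeparableSpace X], ∃ f : X → U, Isometry f)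
    (A : Set ℝ) (hA : IsPolishDistSet A) :
    BorelBireducible (isoRel (VSub U A)) (isoRel (VEq U A)) := by
  refine ⟨?_, ?_⟩
  · obtain ⟨T, m1, m2, m3, m4, hT⟩ := hA
    have hT' : ∀ r, (∃ x y : T, dist x y = r) ↔ r ∈ A := by
      intro r
      rw [← hT]
      rfl
    by_cases h0 : ∃ r ∈ A, r ≠ 0
    · obtain ⟨G⟩ := exists_gadget T hT' h0
      obtain ⟨f0, -⟩ := huniv T
      have : Nonempty U := ⟨f0 (Classical.arbitrary T)⟩
      obtain ⟨u, hu⟩ := exists_dense_seq U
      have : SecondCountableTopology U := UniformSpace.secondCountable_of_separable _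
      obtain ⟨e, he⟩ := huniv (U × WSp G)
      have hclosed : ∀ X : ClosedNonempty U, IsClosed (e '' MM G u X.1) := fun X =>
        he.isClosedEmbedding.isClosedMap _ (isClosed_MM hu X.2.1)
      have hne : ∀ X : ClosedNonempty U, (e '' MM G u X.1).Nonempty := by
        intro X
        obtain ⟨x, hx⟩ := X.2.2
        exact ⟨_, ⟨_, (eM G u X.1 (⟨x, hx⟩, G.z0)).2, rfl⟩⟩
      have hds : ∀ X ∈ VSub U A, distSet (e '' MM G u X.1) = A := by
        intro X hX
        ext r
        rw [← dset_MM (G := G) hu X.2.2 (fun x y => hX ⟨x, y, rfl⟩) r]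
        constructor
        · rintro ⟨p, q, rfl⟩
          exact ⟨(imageIso he _).symm p, (imageIso he _).symm q,
            (imageIso he (MM G u X.1)).symm.dist_eq p q⟩
        · rintro ⟨p, q, rfl⟩
          exact ⟨imageIso he _ p, imageIso he _ q, (imageIso he (MM G u X.1)).dist_eq p q⟩
      refine ⟨fun X => ⟨⟨e '' MM G u X.1.1, hclosed X.1, hne X.1⟩, hds X.1 X.2⟩, ?_, ?_⟩
      · refine Measurable.subtype_mk ?_
        refine measurable_generateFrom ?_
        rintro _ ⟨O, hO, rfl⟩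
        have h1 := measurableSet_MM (G := G) hu (hO.preimage he.continuous)
        have h2 : ((fun X : VSub U A => (⟨e '' MM G u X.1.1, hclosed X.1, hne X.1⟩ :
            ClosedNonempty U)) ⁻¹' {F : ClosedNonempty U | (F.1 ∩ O).Nonempty}) =
            ((fun X : VSub U A => X.1) ⁻¹'
              {F : ClosedNonempty U | (MM G u F.1 ∩ e ⁻¹' O).Nonempty}) := by
          ext X
          constructor
          · rintro ⟨_, ⟨p, hp, rfl⟩, hpO⟩
            exact ⟨p, hp, hpO⟩
          · rintro ⟨p, hp, hpO⟩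
            exact ⟨e p, ⟨p, hp, rfl⟩, hpO⟩
        exact (measurable_subtype_coe h1).congr h2.symm
      · intro X Y
        constructor
        · rintro ⟨g⟩
          obtain ⟨g'⟩ := MM_congr (G := G) hu g
          exact ⟨((imageIso he (MM G u X.1.1)).symm.trans g').trans (imageIso he (MM G u Y.1.1))⟩
        · rintro ⟨g⟩
          exact MM_cancel (G := G) hu
            (((imageIso he (MM G u X.1.1)).trans g).trans (imageIso he (MM G u Y.1.1)).symm)
    · push Not at h0
      have hA0 : A = {0} := by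
        ext r
        constructor
        · exact fun hr => h0 r hr
        · rintro rfl
          exact (hT' 0).1 ⟨Classical.arbitrary T, Classical.arbitrary T, dist_self _⟩
      have hV : ∀ X ∈ VSub U A, X ∈ VEq U A := by
        intro X hX
        refine Set.Subset.antisymm hX ?_
        rw [hA0]
        rintro _ rfl
        obtain ⟨x, hx⟩ := X.2.2
        exact ⟨⟨x, hx⟩, ⟨x, hx⟩, dist_self _⟩
      exact ⟨fun X => ⟨X.1, hV X.1 X.2⟩, measurable_subtype_coe.subtype_mk, fun X Y => Iff.rfl⟩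
  · exact ⟨fun X => ⟨X.1, X.2.subset⟩, measurable_subtype_coe.subtype_mk, fun X Y => Iff.rfl⟩

end PolishDist
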