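import Pool.Agent.Work.MP_c48b3b_lc.Invol

namespace PolishDist

open Relation

/-- `x` and `y` are joined by a finite chain of points with steps `< a`. -/
def Chain {X : Type*} [MetricSpace X] (a : ℝ) : X → X → Prop :=
  ReflTransGen (fun x y => dist x y < a)

section

variable {X Y : Type*} [MetricSpace X] [MetricSpace Y] {a : ℝ}

theorem Chain.refl (x : X) : Chain a x x := ReflTransGen.refl

theorem Chain.single {x y : X} (h : dist x y < a) : Chain a x y := ReflTransGen.single h

theorem Chain.trans {x y z : X} (h : Chain a x y) (h' : Chain a y z) : Chain a x z :=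
  ReflTransGen.trans h h'

theorem Chain.symm {x y : X} (h : Chain a x y) : Chain a y x := by
  induction h with
  | refl => exact Chain.refl _
  | tail _ h ih => exact (Chain.single (by rwa [dist_comm] at h)).trans ih

theorem Chain.comm {x y : X} : Chain a x y ↔ Chain a y x := ⟨Chain.symm, Chain.symm⟩

theorem le_dist_of_not_chain {x y : X} (h : ¬ Chain a x y) : a ≤ dist x y := by
  by_contra h'
  exact h (Chain.single (not_le.1 h'))

theorem Chain.map {x y : X} (g : X → Y) (hg : ∀ u v : X, dist u v < a → dist (g u) (g v) < a)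
    (h : Chain a x y) : Chain a (g x) (g y) := by
  induction h with
  | refl => exact Chain.refl _
  | tail _ h ih => exact ih.trans (Chain.single (hg _ _ h))

theorem Chain.map_chain {x y : X} (g : X → Y) (hg : ∀ u v : X, dist u v < a → Chain a (g u) (g v))
    (h : Chain a x y) : Chain a (g x) (g y) := by
  induction h with
  | refl => exact Chain.refl _
  | tail _ h ih => exact ih.trans (hg _ _ h)

theorem chain_isometry_iff (g : X ≃ᵢ Y) {x y : X} : Chain a (g x) (g y) ↔ Chain a x y := by
  constructor
  · intro h
    have := Chain.map (a := a) g.symm (fun u v huv => by rwa [g.symm.dist_eq]) h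
    simpa using this
  · exact Chain.map g (fun u v huv => by rwa [g.dist_eq])

/-- the relation as a setoid -/
def chainSetoid (X : Type*) [MetricSpace X] (a : ℝ) : Setoid X where
  r := Chain a
  iseqv := ⟨Chain.refl, Chain.symm, Chain.trans⟩

/-- The two point space cancels in maximum products. -/
theorem cancel_two (Φ : X × Bool ≃ Y × Bool)
    (hΦ : ∀ p q : X × Bool, max (dist p.1 q.1) (if p.2 = q.2 then 0 else a) =
      max (dist (Φ p).1 (Φ q).1) (if (Φ p).2 = (Φ q).2 then 0 else a)) :
    Nonempty (X ≃ᵢ Y) := by
  classical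
  -- one step: small distances keep the second coordinate
  have step : ∀ p q : X × Bool, p.2 = q.2 → dist p.1 q.1 < a →
      (Φ p).2 = (Φ q).2 ∧ dist (Φ p).1 (Φ q).1 < a := by
    intro p q h1 h2
    have h := hΦ p q
    rw [if_pos h1, max_eq_left dist_nonneg] at h
    rw [h] at h2
    have h3 : (Φ p).2 = (Φ q).2 := by
      by_contra h3
      rw [if_neg h3] at h2
      exact absurd (le_max_right _ _) (not_le.2 h2)
    exact ⟨h3, lt_of_le_of_lt (le_max_left _ _) h2⟩
  have step' : ∀ p q : Y × Bool, p.2 = q.2 → dist p.1 q.1 < a →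
      (Φ.symm p).2 = (Φ.symm q).2 ∧ dist (Φ.symm p).1 (Φ.symm q).1 < a := by
    intro p q h1 h2
    have h := hΦ (Φ.symm p) (Φ.symm q)
    simp only [Equiv.apply_symm_apply] at h
    rw [if_pos h1, max_eq_left dist_nonneg] at h
    rw [← h] at h2
    have h3 : (Φ.symm p).2 = (Φ.symm q).2 := by
      by_contra h3
      rw [if_neg h3] at h2
      exact absurd (le_max_right _ _) (not_le.2 h2)
    exact ⟨h3, lt_of_le_of_lt (le_max_left _ _) h2⟩
  have chainΦ : ∀ {x x' : X} (i : Bool), Chain a x x' →
      (Φ (x, i)).2 = (Φ (x', i)).2 ∧ Chain a (Φ (x, i)).1 (Φ (x', i)).1 := by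
    intro x x' i h
    induction h with
    | refl => exact ⟨rfl, Chain.refl _⟩
    | @tail b c _ h ih =>
      have := step (b, i) (c, i) rfl h
      exact ⟨ih.1.trans this.1, ih.2.trans (Chain.single this.2)⟩
  have chainΦ' : ∀ {y y' : Y} (i : Bool), Chain a y y' →
      (Φ.symm (y, i)).2 = (Φ.symm (y', i)).2 ∧
        Chain a (Φ.symm (y, i)).1 (Φ.symm (y', i)).1 := by
    intro x x' i h
    induction h with
    | refl => exact ⟨rfl, Chain.refl _⟩
    | @tail b c _ h ih =>
      have := step' (b, i) (c, i) rfl h
      exact ⟨ih.1.trans this.1, ih.2.trans (Chain.single this.2)⟩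
  -- classes of `X × Bool`
  let S : Setoid (X × Bool) :=
    { r := fun p q => p.2 = q.2 ∧ Chain a p.1 q.1
      iseqv := ⟨fun p => ⟨rfl, Chain.refl _⟩, fun h => ⟨h.1.symm, h.2.symm⟩,
        fun h h' => ⟨h.1.trans h'.1, h.2.trans h'.2⟩⟩ }
  let flipX : X × Bool → X × Bool := fun p => (p.1, !p.2)
  let flipY : Y × Bool → Y × Bool := fun p => (p.1, !p.2)
  let tt : X × Bool → X × Bool := fun p => Φ.symm (flipY (Φ p))
  have htt : ∀ p, Φ (tt p) = flipY (Φ p) := fun p => by simp [tt]
  have rel_iff : ∀ p q : X × Bool, S p q ↔ (p.2 = q.2 ∧ Chain a p.1 q.1) := fun p q => Iff.rfl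
  have relΦ : ∀ p q : X × Bool, S p q ↔ ((Φ p).2 = (Φ q).2 ∧ Chain a (Φ p).1 (Φ q).1) := by
    rintro ⟨x, i⟩ ⟨x', i'⟩
    rw [rel_iff]
    constructor
    · rintro ⟨h1, h2⟩
      simp only at h1 h2
      subst h1
      exact chainΦ i h2
    · rintro ⟨h1, h2⟩
      have := chainΦ' (Φ (x, i)).2 h2
      have e1 : Φ.symm ((Φ (x, i)).1, (Φ (x, i)).2) = (x, i) := by simp
      have e2 : Φ.symm ((Φ (x', i')).1, (Φ (x, i)).2) = (x', i') := by rw [h1]; simp
      rw [e1, e2] at this
      exact this
  let σ : Quotient S → Quotient S := Quotient.map flipX (by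
    intro p q h
    exact ⟨by simp [flipX, h.1], h.2⟩)
  let τ : Quotient S → Quotient S := Quotient.map tt (by
    intro p q h
    refine (relΦ _ _).2 ?_
    have h' := (relΦ _ _).1 h
    rw [htt, htt]
    exact ⟨by simp [flipY, h'.1], h'.2⟩)
  have hσ : ∀ q, σ (σ q) = q := by
    intro q
    induction q using Quotient.inductionOn with
    | _ p => simp [σ, Quotient.map_mk, flipX]
  have hτ : ∀ q, τ (τ q) = q := by
    intro q
    induction q using Quotient.inductionOn with
    | _ p => simp [τ, Quotient.map_mk, tt, flipY]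
  have hσ' : ∀ q, σ q ≠ q := by
    intro q
    induction q using Quotient.inductionOn with
    | _ p =>
      intro h
      have := (Quotient.eq (r := S)).1 h
      have := this.1
      simp [flipX] at this
  have hτ' : ∀ q, τ q ≠ q := by
    intro q
    induction q using Quotient.inductionOn with
    | _ p =>
      intro h
      have := (Quotient.eq (r := S)).1 h
      have := ((relΦ _ _).1 this).1
      rw [htt] at this
      simp [flipY] at this
  obtain ⟨χ, hχσ, hχτ⟩ := exists_two_colouring σ τ hσ hτ hσ' hτ'
  let c : X × Bool → Prop := fun p => χ (Quotient.mk S p)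
  have c_rel : ∀ p q, S p q → (c p ↔ c q) := by
    intro p q h
    have : Quotient.mk S p = Quotient.mk S q := Quotient.sound h
    simp only [c, this]
  have c_flip : ∀ x i, c (x, !i) ↔ ¬ c (x, i) := fun x i => hχσ (Quotient.mk S (x, i))
  have c_tt : ∀ p, c (tt p) ↔ ¬ c p := fun p => hχτ (Quotient.mk S p)
  -- the selected index
  let idx : X → Bool := fun x => decide (c (x, true))
  have hidx : ∀ x, c (x, idx x) := by
    intro x
    by_cases h : c (x, true)
    · simp [idx, h]
    · have : c (x, false) := (c_flip x true).2 h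
      simpa [idx, h] using this
  have hidx' : ∀ x i, c (x, i) → i = idx x := by
    intro x i h
    by_contra hne
    have : i = !(idx x) := Bool.eq_not.2 hne
    rw [this] at h
    exact ((c_flip x (idx x)).1 h) (hidx x)
  let ψ : X → Y := fun x => (Φ (x, idx x)).1
  have hψ : Isometry ψ := by
    refine Isometry.of_dist_eq fun x x' => ?_
    have h := hΦ (x, idx x) (x', idx x')
    simp only at h
    by_cases hc : Chain a x x'
    · have hi : idx x' = idx x := by
        refine (hidx' x' (idx x) ?_).symm
        exact (c_rel (x, idx x) (x', idx x) ⟨rfl, hc⟩).1 (hidx x)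
      have h2 := (chainΦ (idx x) hc).1
      rw [hi] at h
      rw [if_pos rfl, if_pos h2, max_eq_left dist_nonneg, max_eq_left dist_nonneg] at h
      simp only [ψ]
      rw [hi, h]
    · have hd : a ≤ dist x x' := le_dist_of_not_chain hc
      have h1 : max (dist x x') (if idx x = idx x' then 0 else a) = dist x x' := by
        split_ifs
        · exact max_eq_left dist_nonneg
        · exact max_eq_left hd
      rw [h1] at h
      change dist (Φ (x, idx x)).1 (Φ (x', idx x')).1 = dist x x'
      by_cases hd' : a ≤ dist (Φ (x, idx x)).1 (Φ (x', idx x')).1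
      · rw [h]
        symm
        split_ifs
        · exact max_eq_left dist_nonneg
        · exact max_eq_left hd'
      · exfalso
        push Not at hd'
        by_cases hk : (Φ (x, idx x)).2 = (Φ (x', idx x')).2
        · rw [if_pos hk, max_eq_left dist_nonneg] at h
          rw [← h] at hd'
          exact absurd hd (not_le.2 hd')
        · -- both selected, but flipped partners
          have hS : S (tt (x, idx x)) (x', idx x') := by
            refine (relΦ _ _).2 ?_
            rw [htt]
            refine ⟨?_, Chain.single hd'⟩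
            exact (Bool.eq_not.2 (Ne.symm hk)).symm
          have h3 := (c_rel _ _ hS).2 (hidx x')
          exact (c_tt _).1 h3 (hidx x)
  have hsurj : Function.Surjective ψ := by
    intro y
    have key : ∀ k, c (Φ.symm (y, k)) → ∃ x, ψ x = y := by
      intro k hk
      refine ⟨(Φ.symm (y, k)).1, ?_⟩
      have : (Φ.symm (y, k)).2 = idx (Φ.symm (y, k)).1 := hidx' _ _ hk
      simp only [ψ]
      rw [← this]
      simp
    by_cases h : c (Φ.symm (y, true))
    · exact key true h
    · refine key false ?_
      have := (c_tt (Φ.symm (y, true))).2 h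
      simpa [tt, flipY] using this
  exact ⟨IsometryEquiv.mk' ψ (Function.surjInv hsurj) (Function.surjInv_eq hsurj) hψ⟩

end

end PolishDist
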