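import Pool.Agent.Work.MP_c48b3b_lc.Space

namespace PolishDist

open TopologicalSpace Metric

section

variable {A : Set ℝ} {G : Gadget A} {U : Type*} [MetricSpace U]

/-- the label of the class of a point -/
noncomputable def lab (u : ℕ → U) (a : ℝ) (X : Set U) (x : X) : ℕ :=
  sInf {n | ∃ y : X, dist (u n) (y : U) < a / 2 ∧ Chain a x y}

theorem lab_nonempty {u : ℕ → U} (hu : DenseRange u) {a : ℝ} (ha : 0 < a) {X : Set U} (x : X) :
    {n | ∃ y : X, dist (u n) (y : U) < a / 2 ∧ Chain a x y}.Nonempty := by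
  obtain ⟨n, hn⟩ := hu.exists_dist_lt (x : U) (half_pos ha)
  exact ⟨n, x, by rwa [dist_comm], Chain.refl _⟩

theorem lab_spec {u : ℕ → U} (hu : DenseRange u) {a : ℝ} (ha : 0 < a) {X : Set U} (x : X) :
    ∃ y : X, dist (u (lab u a X x)) (y : U) < a / 2 ∧ Chain a x y :=
  Nat.sInf_mem (lab_nonempty hu ha x)

theorem chain_of_near {v : U} {a : ℝ} {X : Set U} {y y' : X} (h : dist v (y : U) < a / 2)
    (h' : dist v (y' : U) < a / 2) : Chain a y y' := by
  refine Chain.single ?_
  have : dist (y : U) y' ≤ dist v (y : U) + dist v (y' : U) := dist_triangle_left _ _ _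
  change dist (y : U) y' < a
  linarith

theorem lab_eq_iff {u : ℕ → U} (hu : DenseRange u) {a : ℝ} (ha : 0 < a) {X : Set U} (x x' : X) :
    lab u a X x = lab u a X x' ↔ Chain a x x' := by
  constructor
  · intro h
    obtain ⟨y, hy1, hy2⟩ := lab_spec hu ha x
    obtain ⟨y', hy1', hy2'⟩ := lab_spec hu ha x'
    rw [← h] at hy1'
    exact hy2.trans ((chain_of_near hy1 hy1').trans hy2'.symm)
  · intro h
    unfold lab
    congr 1
    ext n
    exact ⟨fun ⟨y, h1, h2⟩ => ⟨y, h1, h.symm.trans h2⟩, fun ⟨y, h1, h2⟩ => ⟨y, h1, h.trans h2⟩⟩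

/-- The space `M(X)`, a subset of `U × W`. -/
def MM (G : Gadget A) (u : ℕ → U) (X : Set U) : Set (U × WSp G) :=
  {p | ∃ hx : p.1 ∈ X, p.2.n = lab u G.a X ⟨p.1, hx⟩}

/-- The distance of `M(X)` in the coordinates `X × Z`. -/
noncomputable def eM (G : Gadget A) (u : ℕ → U) (X : Set U) : X × G.Z ≃ MM G u X where
  toFun p := ⟨((p.1 : U), ⟨lab u G.a X p.1, p.2⟩), ⟨p.1.2, rfl⟩⟩
  invFun q := (⟨q.1.1, q.2.choose⟩, q.1.2.z)
  left_inv p := rfl
  right_inv q := by
    apply Subtype.ext
    refine Prod.ext rfl ?_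
    have h := q.2.choose_spec
    change (⟨lab u G.a X ⟨q.1.1, q.2.choose⟩, q.1.2.z⟩ : WSp G) = q.1.2
    rw [← h]

theorem dist_eM {u : ℕ → U} (hu : DenseRange u) {X : Set U} (p q : X × G.Z) :
    (Chain G.a p.1 q.1 → dist (eM G u X p) (eM G u X q) = max (dist p.1 q.1) (dist p.2 q.2)) ∧
    (¬ Chain G.a p.1 q.1 → dist (eM G u X p) (eM G u X q) =
      max (dist p.1 q.1) (max (nrm p.2) (nrm q.2))) := by
  constructor
  · intro h
    have h1 := (lab_eq_iff hu G.apos p.1 q.1).2 h
    change max (dist (p.1 : U) q.1) (dist (⟨lab u G.a X p.1, p.2⟩ : WSp G) ⟨lab u G.a X q.1, q.2⟩) = _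
    rw [WSp.dist_of_eq (p := ⟨lab u G.a X p.1, p.2⟩) (q := ⟨lab u G.a X q.1, q.2⟩) h1]
    rfl
  · intro h
    have h1 : lab u G.a X p.1 ≠ lab u G.a X q.1 := fun h' => h ((lab_eq_iff hu G.apos p.1 q.1).1 h')
    change max (dist (p.1 : U) q.1) (dist (⟨lab u G.a X p.1, p.2⟩ : WSp G) ⟨lab u G.a X q.1, q.2⟩) = _
    rw [WSp.dist_of_ne (p := ⟨lab u G.a X p.1, p.2⟩) (q := ⟨lab u G.a X q.1, q.2⟩) h1,
      ← max_assoc, max_eq_left (a := dist (p.1 : U) q.1) (b := G.a)
        (le_dist_of_not_chain (x := p.1) (y := q.1) h)]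
    rfl

theorem dist_eM_of_chain {u : ℕ → U} (hu : DenseRange u) {X : Set U} {x y : X} (h : Chain G.a x y)
    (z w : G.Z) : dist (eM G u X (x, z)) (eM G u X (y, w)) = max (dist x y) (dist z w) :=
  (dist_eM hu (x, z) (y, w)).1 h

theorem dist_eM_of_not_chain {u : ℕ → U} (hu : DenseRange u) {X : Set U} {x y : X}
    (h : ¬ Chain G.a x y) (z w : G.Z) :
    dist (eM G u X (x, z)) (eM G u X (y, w)) = max (dist x y) (max (nrm z) (nrm w)) :=
  (dist_eM hu (x, z) (y, w)).2 h

theorem isClosed_MM {u : ℕ → U} (hu : DenseRange u) {X : Set U} (hX : IsClosed X) :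
    IsClosed (MM G u X) := by
  refine isClosed_of_closure_subset fun p hp => ?_
  have hp1 : p.1 ∈ X := by
    have h1 : p.1 ∈ closure X := by
      rw [Metric.mem_closure_iff]
      intro ε hε
      obtain ⟨q, hq, hpq⟩ := Metric.mem_closure_iff.1 hp ε hε
      exact ⟨q.1, hq.1, lt_of_le_of_lt (le_max_left _ _) hpq⟩
    rwa [hX.closure_eq] at h1
  obtain ⟨q, ⟨hq, hqn⟩, hpq⟩ := Metric.mem_closure_iff.1 hp G.a G.apos
  refine ⟨hp1, ?_⟩
  have h1 : dist p.1 q.1 < G.a := lt_of_le_of_lt (le_max_left _ _) hpq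
  have h2 : dist p.2 q.2 < G.a := lt_of_le_of_lt (le_max_right _ _) hpq
  rw [WSp.n_eq_of_dist_lt h2, hqn]
  refine (lab_eq_iff hu G.apos _ _).2 ?_
  refine Chain.single ?_
  change dist q.1 p.1 < G.a
  rwa [dist_comm]

/-! ### the distance set -/

theorem dset_MM {u : ℕ → U} (hu : DenseRange u) {X : Set U} (hX : X.Nonempty)
    (hA : ∀ x y : X, dist x y ∈ A) (r : ℝ) :
    (∃ p q : MM G u X, dist p q = r) ↔ r ∈ A := by
  have hnrm : ∀ z : G.Z, nrm z ∈ A := fun z => (G.dset _).1 ⟨G.z0, z, rfl⟩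
  have hmax : ∀ s t : ℝ, s ∈ A → t ∈ A → max s t ∈ A := by
    intro s t hs ht
    rcases max_choice s t with h | h <;> rw [h] <;> assumption
  constructor
  · rintro ⟨p, q, rfl⟩
    obtain ⟨⟨x, z⟩, rfl⟩ := (eM G u X).surjective p
    obtain ⟨⟨y, w⟩, rfl⟩ := (eM G u X).surjective q
    by_cases h : Chain G.a x y
    · rw [dist_eM_of_chain hu h]
      exact hmax _ _ (hA _ _) ((G.dset _).1 ⟨z, w, rfl⟩)
    · rw [dist_eM_of_not_chain hu h]
      exact hmax _ _ (hA _ _) (hmax _ _ (hnrm _) (hnrm _))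
  · intro hr
    obtain ⟨z, w, rfl⟩ := (G.dset r).2 hr
    obtain ⟨x, hx⟩ := hX
    refine ⟨eM G u X (⟨x, hx⟩, z), eM G u X (⟨x, hx⟩, w), ?_⟩
    rw [dist_eM_of_chain hu (Chain.refl _), dist_self, max_eq_right dist_nonneg]

/-! ### isometric spaces give isometric spaces -/

theorem MM_congr {u : ℕ → U} (hu : DenseRange u) {X Y : Set U} (g : X ≃ᵢ Y) :
    Nonempty (MM G u X ≃ᵢ MM G u Y) := by
  let f : MM G u X ≃ MM G u Y :=
    (eM G u X).symm.trans ((g.toEquiv.prodCongr (Equiv.refl _)).trans (eM G u Y))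
  have hf : ∀ x z, f (eM G u X (x, z)) = eM G u Y (g x, z) := by
    intro x z
    simp [f]
  refine ⟨⟨f, Isometry.of_dist_eq fun p q => ?_⟩⟩
  obtain ⟨⟨x, z⟩, rfl⟩ := (eM G u X).surjective p
  obtain ⟨⟨y, w⟩, rfl⟩ := (eM G u X).surjective q
  change dist (f (eM G u X (x, z))) (f (eM G u X (y, w))) = _
  rw [hf, hf]
  by_cases h : Chain G.a x y
  · rw [dist_eM_of_chain hu h, dist_eM_of_chain hu ((chain_isometry_iff g).2 h), g.dist_eq]
  · rw [dist_eM_of_not_chain hu h,
      dist_eM_of_not_chain hu (fun h' => h ((chain_isometry_iff g).1 h')), g.dist_eq]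

/-! ### recovering `X` -/

theorem chain_eM {u : ℕ → U} (hu : DenseRange u) {X : Set U} {x y : X} {z w : G.Z} :
    Chain G.a (eM G u X (x, z)) (eM G u X (y, w)) ↔ Chain G.a x y ∧ Chain G.a z w := by
  constructor
  · intro h
    have key : ∀ p q : MM G u X, dist p q < G.a →
        dist ((eM G u X).symm p).1 ((eM G u X).symm q).1 < G.a ∧
        dist ((eM G u X).symm p).2 ((eM G u X).symm q).2 < G.a := by
      intro p q hpq
      obtain ⟨⟨x, z⟩, rfl⟩ := (eM G u X).surjective p
      obtain ⟨⟨y, w⟩, rfl⟩ := (eM G u X).surjective q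
      simp only [Equiv.symm_apply_apply]
      by_cases h : Chain G.a x y
      · rw [dist_eM_of_chain hu h] at hpq
        exact ⟨lt_of_le_of_lt (le_max_left _ _) hpq, lt_of_le_of_lt (le_max_right _ _) hpq⟩
      · rw [dist_eM_of_not_chain hu h] at hpq
        exact absurd (lt_of_le_of_lt (le_max_left _ _) hpq) (not_lt.2 (le_dist_of_not_chain h))
    have h1 := Chain.map (fun p => ((eM G u X).symm p).1) (fun p q hpq => (key p q hpq).1) h
    have h2 := Chain.map (fun p => ((eM G u X).symm p).2) (fun p q hpq => (key p q hpq).2) h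
    simp only [Equiv.symm_apply_apply] at h1 h2
    exact ⟨h1, h2⟩
  · rintro ⟨h1, h2⟩
    have h3 : Chain G.a (eM G u X (x, z)) (eM G u X (y, z)) := by
      refine Chain.map (fun t => eM G u X (t, z)) (fun s t hst => ?_) h1
      rw [dist_eM_of_chain hu (Chain.single hst), dist_self, max_eq_left dist_nonneg]
      exact hst
    have h4 : Chain G.a (eM G u X (y, z)) (eM G u X (y, w)) := by
      refine Chain.map (fun t => eM G u X (y, t)) (fun s t hst => ?_) h2
      rw [dist_eM_of_chain hu (Chain.refl _), dist_self, max_eq_right dist_nonneg]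
      exact hst
    exact h3.trans h4

theorem Gadget.not_chain (G : Gadget A) : ¬ Chain G.a G.z0 G.z1 := by
  have key : ∀ z, Chain G.a G.z0 z → z = G.z0 := by
    intro z h
    induction h with
    | refl => rfl
    | @tail b c _ h ih =>
      subst ih
      by_contra hc
      by_cases hc1 : c = G.z1
      · subst hc1
        rw [G.d01] at h
        exact lt_irrefl _ h
      · exact absurd h (not_lt.2 (G.far0 c hc hc1).le)
  intro h
  have h1 := key _ h
  have h2 := G.d01
  rw [h1, dist_self] at h2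
  exact absurd h2 G.apos.ne

/-- marked points -/
def Marked {T : Type*} [MetricSpace T] (a : ℝ) (p : T) : Prop := ∃ q, dist p q ≤ a ∧ ¬ Chain a p q

theorem marked_isometry_iff {T T' : Type*} [MetricSpace T] [MetricSpace T'] {a : ℝ} (g : T ≃ᵢ T')
    (p : T) : Marked a (g p) ↔ Marked a p := by
  constructor
  · rintro ⟨q, h1, h2⟩
    refine ⟨g.symm q, ?_, ?_⟩
    · rw [← g.dist_eq]; simpa using h1
    · intro h
      apply h2
      rw [← chain_isometry_iff g] at h
      simpa using h
  · rintro ⟨q, h1, h2⟩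
    exact ⟨g q, by rwa [g.dist_eq], fun h => h2 ((chain_isometry_iff g).1 h)⟩

theorem marked_eM {u : ℕ → U} (hu : DenseRange u) {X : Set U} (x : X) (z : G.Z) :
    Marked G.a (eM G u X (x, z)) ↔ (z = G.z0 ∨ z = G.z1) := by
  constructor
  · rintro ⟨q, h1, h2⟩
    obtain ⟨⟨y, w⟩, rfl⟩ := (eM G u X).surjective q
    by_contra hz
    push Not at hz
    by_cases h : Chain G.a x y
    · rw [dist_eM_of_chain hu h] at h1
      have h3 : dist z w ≤ G.a := (le_max_right _ _).trans h1
      have hw0 : w ≠ G.z0 := by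
        rintro rfl
        have := G.far0 z hz.1 hz.2
        rw [dist_comm] at this
        linarith
      have hw1 : w ≠ G.z1 := by
        rintro rfl
        have := G.far1 z hz.1 hz.2
        rw [dist_comm] at this
        linarith
      apply h2
      rw [chain_eM hu]
      refine ⟨h, ?_⟩
      rcases h3.lt_or_eq with h3 | h3
      · exact Chain.single h3
      · exact G.star z w hz.1 hz.2 hw0 hw1 h3
    · rw [dist_eM_of_not_chain hu h] at h1
      have h3 : nrm z ≤ G.a := (le_max_left _ _).trans ((le_max_right _ _).trans h1)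
      have := G.far0 z hz.1 hz.2
      unfold nrm at h3
      linarith
  · rintro (rfl | rfl)
    · refine ⟨eM G u X (x, G.z1), ?_, ?_⟩
      · rw [dist_eM_of_chain hu (Chain.refl _), dist_self, G.d01, max_eq_right G.apos.le]
      · rw [chain_eM hu]
        exact fun h => G.not_chain h.2
    · refine ⟨eM G u X (x, G.z0), ?_, ?_⟩
      · rw [dist_eM_of_chain hu (Chain.refl _), dist_self, dist_comm, G.d01,
          max_eq_right G.apos.le]
      · rw [chain_eM hu]
        exact fun h => G.not_chain h.2.symm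

/-- the two marked points of the gadget -/
def zb (G : Gadget A) : Bool → G.Z := fun i => if i then G.z1 else G.z0

theorem dist_zb (G : Gadget A) (i j : Bool) :
    dist (zb G i) (zb G j) = if i = j then 0 else G.a := by
  cases i <;> cases j <;> simp [zb, G.d01, dist_comm G.z1 G.z0]

theorem zb_injective (G : Gadget A) : Function.Injective (zb G) := by
  intro i j h
  by_contra hij
  have := dist_zb G i j
  rw [h, dist_self, if_neg hij] at this
  exact absurd this G.apos.ne

theorem nrm_zb_le (G : Gadget A) (i : Bool) : nrm (zb G i) ≤ G.a := by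
  have h := dist_zb G false i
  have h0 : zb G false = G.z0 := rfl
  rw [h0] at h
  unfold nrm
  rw [h]
  split_ifs
  · exact G.apos.le
  · exact le_refl _

theorem dist_eM_zb {u : ℕ → U} (hu : DenseRange u) {X : Set U} (x y : X) (i j : Bool) :
    dist (eM G u X (x, zb G i)) (eM G u X (y, zb G j)) =
      max (dist x y) (if i = j then 0 else G.a) := by
  by_cases h : Chain G.a x y
  · rw [dist_eM_of_chain hu h, dist_zb]
  · rw [dist_eM_of_not_chain hu h]
    have hd := le_dist_of_not_chain h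
    rw [max_eq_left (max_le ((nrm_zb_le G i).trans hd) ((nrm_zb_le G j).trans hd))]
    split_ifs
    · exact (max_eq_left dist_nonneg).symm
    · exact (max_eq_left hd).symm

theorem exists_zb {u : ℕ → U} (hu : DenseRange u) {X Y : Set U} (g : MM G u X ≃ᵢ MM G u Y)
    (p : X × Bool) : ∃ q : Y × Bool, eM G u Y (q.1, zb G q.2) = g (eM G u X (p.1, zb G p.2)) := by
  obtain ⟨⟨y, w⟩, hw⟩ := (eM G u Y).surjective (g (eM G u X (p.1, zb G p.2)))
  have h1 : Marked G.a (g (eM G u X (p.1, zb G p.2))) := by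
    rw [marked_isometry_iff, marked_eM hu]
    cases p.2
    · exact Or.inl rfl
    · exact Or.inr rfl
  rw [← hw, marked_eM hu] at h1
  rcases h1 with rfl | rfl
  · exact ⟨(y, false), hw⟩
  · exact ⟨(y, true), hw⟩

theorem eM_zb_injective {u : ℕ → U} {X : Set U} {p q : X × Bool}
    (h : eM G u X (p.1, zb G p.2) = eM G u X (q.1, zb G q.2)) : p = q := by
  have h1 := (eM G u X).injective h
  rw [Prod.mk.injEq] at h1
  exact Prod.ext h1.1 (zb_injective G h1.2)

theorem MM_cancel {u : ℕ → U} (hu : DenseRange u) {X Y : Set U} (g : MM G u X ≃ᵢ MM G u Y) :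
    Nonempty (X ≃ᵢ Y) := by
  choose F hF using exists_zb hu g
  choose F' hF' using exists_zb hu g.symm
  let Φ : X × Bool ≃ Y × Bool :=
    { toFun := F
      invFun := F'
      left_inv := by
        intro p
        apply eM_zb_injective
        rw [hF', hF, g.symm_apply_apply]
      right_inv := by
        intro p
        apply eM_zb_injective
        rw [hF, hF', g.apply_symm_apply] }
  refine cancel_two (a := G.a) Φ fun p q => ?_
  rw [← dist_eM_zb hu, ← dist_eM_zb hu]
  change _ = dist (eM G u Y ((F p).1, zb G (F p).2)) (eM G u Y ((F q).1, zb G (F q).2))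
  rw [hF, hF, g.dist_eq]

end

end PolishDist
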