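import Pool.Agent.Work.MP_c48b3b_lc.Functor

namespace PolishDist

open TopologicalSpace Metric

/-! ### countable distance sets -/

/-- pairs at every distance of `A` -/
structure PZ (A : Set ℝ) (a₁ a₂ : ℝ) where
  b : ℝ
  i : Bool
  hb : b ∈ A
  hb0 : 0 < b

section countable

variable {A : Set ℝ} {a₁ a₂ : ℝ}

/-- height -/
noncomputable def ht (a₁ a₂ b : ℝ) : ℝ := if b = a₁ then a₁ else max b a₂

theorem le_ht (b : ℝ) : b ≤ ht a₁ a₂ b := by
  unfold ht
  split_ifs with h
  · exact h.le
  · exact le_max_left _ _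

theorem ht_ge (h12 : a₁ < a₂) (b : ℝ) : a₁ ≤ ht a₁ a₂ b := by
  unfold ht
  split_ifs with h
  · exact le_refl _
  · exact h12.le.trans (le_max_right _ _)

theorem ht_ge' {b : ℝ} (hb : b ≠ a₁) : a₂ ≤ ht a₁ a₂ b := by
  unfold ht
  rw [if_neg hb]
  exact le_max_right _ _

theorem PZ.ext' {p q : PZ A a₁ a₂} (h : p.b = q.b) (h' : p.i = q.i) : p = q := by
  cases p; cases q
  simp only at h h'
  subst h; subst h'
  rfl

/-- the distance -/
noncomputable def pzd (p q : PZ A a₁ a₂) : ℝ :=
  if p.b = q.b then (if p.i = q.i then 0 else p.b) else max (ht a₁ a₂ p.b) (ht a₁ a₂ q.b)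

/-- the metric -/
@[reducible] noncomputable def pzMetric (h1 : 0 < a₁) (h12 : a₁ < a₂) : MetricSpace (PZ A a₁ a₂) where
  dist := pzd
  dist_self p := by simp [pzd]
  dist_comm p q := by
    simp only [pzd]
    by_cases h : p.b = q.b
    · rw [if_pos h, if_pos h.symm, h]
      by_cases h' : p.i = q.i
      · rw [if_pos h', if_pos h'.symm]
      · rw [if_neg h', if_neg (Ne.symm h')]
    · rw [if_neg h, if_neg (Ne.symm h), max_comm]
  dist_triangle p q r := by
    have k1 := le_ht (a₁ := a₁) (a₂ := a₂) p.b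
    have k2 := ht_ge h12 p.b
    have k3 := ht_ge h12 q.b
    have k4 := ht_ge h12 r.b
    have k5 := p.hb0
    have k6 := q.hb0
    have k7 := r.hb0
    have nn : ∀ s t : PZ A a₁ a₂, 0 ≤ (if s.i = t.i then 0 else s.b : ℝ) := by
      intro s t
      split_ifs
      · exact le_refl _
      · exact s.hb0.le
    have m1 := le_max_left (ht a₁ a₂ p.b) (ht a₁ a₂ q.b)
    have m2 := le_max_right (ht a₁ a₂ p.b) (ht a₁ a₂ q.b)
    have m3 := le_max_left (ht a₁ a₂ q.b) (ht a₁ a₂ r.b)
    have m4 := le_max_right (ht a₁ a₂ q.b) (ht a₁ a₂ r.b)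
    simp only [pzd]
    by_cases e1 : p.b = q.b
    · by_cases e2 : q.b = r.b
      · rw [if_pos e1, if_pos e2, if_pos (e1.trans e2)]
        by_cases f1 : p.i = q.i
        · by_cases f2 : q.i = r.i
          · rw [if_pos f1, if_pos f2, if_pos (f1.trans f2)]; simp
          · rw [if_pos f1, if_neg f2, if_neg (fun h => f2 (f1.symm.trans h)), e1]; simp
        · have := nn q r
          rw [if_neg f1]
          split_ifs <;> linarith
      · rw [if_pos e1, if_neg e2, if_neg (fun h => e2 (e1.symm.trans h))]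
        have := nn p q
        rw [e1]
        rw [e1] at this
        linarith
    · by_cases e2 : q.b = r.b
      · rw [if_neg e1, if_pos e2, if_neg (fun h => e1 (h.trans e2.symm))]
        have := nn q r
        rw [← e2]
        linarith
      · rw [if_neg e1, if_neg e2]
        split_ifs
        · linarith
        · linarith
        · refine max_le ?_ ?_ <;> linarith
  eq_of_dist_eq_zero := by
    intro p q h
    have k2 := ht_ge h12 p.b
    have m1 := le_max_left (ht a₁ a₂ p.b) (ht a₁ a₂ q.b)
    simp only [pzd] at h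
    by_cases e1 : p.b = q.b
    · rw [if_pos e1] at h
      by_cases f1 : p.i = q.i
      · exact PZ.ext' e1 f1
      · rw [if_neg f1] at h
        exact absurd h p.hb0.ne'
    · rw [if_neg e1] at h
      linarith

theorem PZ.b_eq (h12 : a₁ < a₂) {p q : PZ A a₁ a₂} (h : pzd p q < a₁) : p.b = q.b := by
  by_contra e
  rw [pzd, if_neg e] at h
  have k2 := ht_ge h12 p.b
  have m1 := le_max_left (ht a₁ a₂ p.b) (ht a₁ a₂ q.b)
  linarith

theorem pz_complete (h1 : 0 < a₁) (h12 : a₁ < a₂) :
    @CompleteSpace (PZ A a₁ a₂) (pzMetric h1 h12).toUniformSpace := by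
  let _ := pzMetric (A := A) h1 h12
  refine Metric.complete_of_cauchySeq_tendsto fun u hu => ?_
  obtain ⟨N, hN⟩ := Metric.cauchySeq_iff'.1 hu a₁ h1
  have hn : ∀ n ≥ N, (u n).b = (u N).b := fun n hn => PZ.b_eq h12 (hN n hn)
  obtain ⟨M, hM⟩ := Metric.cauchySeq_iff'.1 hu (u N).b (u N).hb0
  refine ⟨u (max M N), ?_⟩
  have key : ∀ n ≥ max M N, u n = u (max M N) := by
    intro n hn'
    have hb1 : (u n).b = (u N).b := hn n ((le_max_right _ _).trans hn')
    have hbM : (u (max M N)).b = (u N).b := hn _ (le_max_right _ _)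
    have hMi : ∀ n ≥ max M N, (u n).i = (u M).i := by
      intro n hn'
      have hlt := hM n ((le_max_left _ _).trans hn')
      by_contra hne
      have hbn : (u n).b = (u N).b := hn n ((le_max_right _ _).trans hn')
      change (if (u n).b = (u M).b then (if (u n).i = (u M).i then (0:ℝ) else (u n).b)
        else max (ht a₁ a₂ (u n).b) (ht a₁ a₂ (u M).b)) < _ at hlt
      rw [if_neg hne] at hlt
      split_ifs at hlt
      · linarith
      · have := le_ht (a₁ := a₁) (a₂ := a₂) (u n).b
        have := le_max_left (ht a₁ a₂ (u n).b) (ht a₁ a₂ (u M).b)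
        linarith
    exact PZ.ext' (hb1.trans hbM.symm) ((hMi n hn').trans (hMi _ le_rfl).symm)
  refine tendsto_const_nhds.congr' ?_
  filter_upwards [Filter.eventually_ge_atTop (max M N)] with n hn'
  exact (key n hn').symm

theorem pz_countable (hA : A.Countable) : Countable (PZ A a₁ a₂) := by
  have := hA.to_subtype
  have : Function.Injective (fun p : PZ A a₁ a₂ => ((⟨p.b, p.hb⟩ : A), p.i)) := by
    intro p q h
    simp only [Prod.mk.injEq, Subtype.mk.injEq] at h
    exact PZ.ext' h.1 h.2
  exact this.countable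

theorem gadget_countable (hA : A.Countable) (h0 : (0 : ℝ) ∈ A) (hnn : ∀ r ∈ A, 0 ≤ r)
    (h1 : 0 < a₁) (ha₁ : a₁ ∈ A) (h12 : a₁ < a₂) (hH : ∀ b ∈ A, b ≠ 0 → b ≠ a₁ → a₂ ∈ A) :
    Nonempty (Gadget A) := by
  let _ := pzMetric (A := A) h1 h12
  have := pz_complete (A := A) h1 h12
  have := pz_countable (a₁ := a₁) (a₂ := a₂) hA
  have dd : ∀ p q : PZ A a₁ a₂, dist p q = if p.b = q.b then (if p.i = q.i then 0 else p.b)
    else max (ht a₁ a₂ p.b) (ht a₁ a₂ q.b) := fun p q => rfl
  have hb : ∀ p : PZ A a₁ a₂, p ≠ ⟨a₁, false, ha₁, h1⟩ → p ≠ ⟨a₁, true, ha₁, h1⟩ → p.b ≠ a₁ := by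
    intro p hp hq hpb
    cases h : p.i
    · exact hp (PZ.ext' hpb h)
    · exact hq (PZ.ext' hpb h)
  have hhA : ∀ p : PZ A a₁ a₂, ht a₁ a₂ p.b ∈ A := by
    intro p
    unfold ht
    split_ifs with h
    · exact ha₁
    · have := hH p.b p.hb p.hb0.ne' h
      rcases max_choice p.b a₂ with h | h <;> rw [h]
      · exact p.hb
      · exact this
  refine ⟨{ Z := PZ A a₁ a₂
            met := inferInstance
            compl := inferInstance
            sep := inferInstance
            a := a₁
            z0 := ⟨a₁, false, ha₁, h1⟩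
            z1 := ⟨a₁, true, ha₁, h1⟩
            apos := h1
            d01 := by rw [dd]; simp
            far0 := ?_
            far1 := ?_
            star := ?_
            dset := ?_ }⟩
  · intro p hp hq
    have h := hb p hp hq
    rw [dd, if_neg (fun h' => h h'.symm)]
    exact lt_of_lt_of_le h12 ((ht_ge' h).trans (le_max_right _ _))
  · intro p hp hq
    have h := hb p hp hq
    rw [dd, if_neg (fun h' => h h'.symm)]
    exact lt_of_lt_of_le h12 ((ht_ge' h).trans (le_max_right _ _))
  · intro p q hp hp' hq hq' h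
    exfalso
    have e1 := hb p hp hp'
    rw [dd] at h
    split_ifs at h
    · exact h1.ne h
    · exact e1 h
    · have := (ht_ge' (a₂ := a₂) e1).trans (le_max_left (ht a₁ a₂ p.b) (ht a₁ a₂ q.b))
      linarith
  · intro r
    constructor
    · rintro ⟨p, q, rfl⟩
      rw [dd]
      split_ifs
      · exact h0
      · exact p.hb
      · rcases max_choice (ht a₁ a₂ p.b) (ht a₁ a₂ q.b) with h | h <;> rw [h] <;> exact hhA _
    · intro hr
      rcases (hnn r hr).lt_or_eq with h | h
      · exact ⟨⟨r, false, hr, h⟩, ⟨r, true, hr, h⟩, by rw [dd]; simp⟩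
      · exact ⟨⟨a₁, false, ha₁, h1⟩, ⟨a₁, false, ha₁, h1⟩, by rw [dd]; simp [h]⟩

end countable

/-! ### uncountable distance sets -/

/-- distances realised between different classes form a countable set -/
theorem countable_jumps (T : Type*) [MetricSpace T] [SeparableSpace T] :
    {t : ℝ | ∃ p q : T, dist p q = t ∧ ¬ Chain t p q}.Countable := by
  by_cases hT : Nonempty T
  swap
  · convert Set.countable_empty
    ext t
    simp only [Set.mem_ofPred_eq, Set.mem_empty_iff_false, iff_false]
    rintro ⟨p, -⟩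
    exact hT ⟨p⟩
  obtain ⟨s, hs⟩ := exists_dense_seq T
  have h : ∀ t : {t : ℝ | ∃ p q : T, dist p q = t ∧ ¬ Chain t p q}, ∃ nm : ℕ × ℕ,
      ¬ Chain (t : ℝ) (s nm.1) (s nm.2) ∧ ∀ t' > (t : ℝ), Chain t' (s nm.1) (s nm.2) := by
    rintro ⟨t, p, q, hpq, hc⟩
    have ht : 0 < t := by
      rcases (dist_nonneg (x := p) (y := q)).lt_or_eq with h | h
      · rwa [hpq] at h
      · exfalso
        apply hc
        rw [eq_of_dist_eq_zero h.symm]
        exact Chain.refl _
    obtain ⟨n, hn⟩ := hs.exists_dist_lt p ht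
    obtain ⟨m, hm⟩ := hs.exists_dist_lt q ht
    refine ⟨(n, m), ?_, ?_⟩
    · intro hh
      exact hc ((Chain.single hn).trans (hh.trans (Chain.single (by rwa [dist_comm] at hm))))
    · intro t' ht'
      have ht'' : t < t' := ht'
      refine (Chain.single (y := p) ?_).trans ((Chain.single (y := q) ?_).trans (Chain.single ?_))
      · rw [dist_comm]; exact hn.trans ht''
      · rw [hpq]; exact ht''
      · exact hm.trans ht''
  choose f hf1 hf2 using h
  have hinj : Function.Injective f := by
    intro t t' htt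
    by_contra hne
    rcases lt_or_gt_of_ne (fun h => hne (Subtype.ext h) : (t : ℝ) ≠ t') with h | h
    · exact hf1 t' (by rw [← htt]; exact hf2 t _ h)
    · exact hf1 t (by rw [htt]; exact hf2 t' _ h)
  exact hinj.countable

/-- two extra points -/
inductive QZ (T : Type) (a₁ a₂ : ℝ) (o : T) where
  | pt : Bool → QZ T a₁ a₂ o
  | mk : T → QZ T a₁ a₂ o

section uncountable

variable {T : Type} [MetricSpace T] {a₁ a₂ : ℝ} {o : T}

/-- the distance -/
noncomputable def qd : QZ T a₁ a₂ o → QZ T a₁ a₂ o → ℝ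
  | .pt i, .pt j => if i = j then 0 else a₁
  | .pt _, .mk p => max a₂ (dist p o)
  | .mk p, .pt _ => max a₂ (dist p o)
  | .mk p, .mk q => dist p q

/-- the metric -/
@[reducible] noncomputable def qzMetric (h1 : 0 < a₁) (h12 : a₁ < a₂) : MetricSpace (QZ T a₁ a₂ o) where
  dist := qd
  dist_self p := by cases p <;> simp [qd]
  dist_comm p q := by
    cases p <;> cases q <;> simp [qd, dist_comm, eq_comm]
  dist_triangle p q r := by
    have key : ∀ i j : Bool, 0 ≤ (if i = j then 0 else a₁ : ℝ) ∧ (if i = j then 0 else a₁ : ℝ) ≤ a₁ := by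
      intro i j
      split_ifs
      · exact ⟨le_refl _, h1.le⟩
      · exact ⟨h1.le, le_refl _⟩
    rcases p with i | p <;> rcases q with j | q <;> rcases r with k | r <;> simp only [qd]
    · cases i <;> cases j <;> cases k <;> simp [h1.le]
    · linarith [(key i j).1]
    · have := le_max_left a₂ (dist q o)
      linarith [(key i k).2]
    · refine max_le ?_ ?_
      · linarith [le_max_left a₂ (dist q o), dist_nonneg (x := q) (y := r)]
      · linarith [le_max_right a₂ (dist q o), dist_triangle_left r o q]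
    · linarith [(key j k).1]
    · linarith [le_max_right a₂ (dist p o), le_max_right a₂ (dist r o), dist_triangle_right p r o]
    · refine max_le ?_ ?_
      · linarith [le_max_left a₂ (dist q o), dist_nonneg (x := p) (y := q)]
      · linarith [le_max_right a₂ (dist q o), dist_triangle p q o]
    · exact dist_triangle p q r
  eq_of_dist_eq_zero := by
    intro p q h
    rcases p with i | p <;> rcases q with j | q
    · simp only [qd] at h
      by_cases hij : i = j
      · rw [hij]
      · rw [if_neg hij] at h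
        exact absurd h h1.ne'
    · simp only [qd] at h
      linarith [le_max_left a₂ (dist q o)]
    · simp only [qd] at h
      linarith [le_max_left a₂ (dist p o)]
    · simp only [qd] at h
      rw [eq_of_dist_eq_zero h]

theorem qz_complete [CompleteSpace T] (h1 : 0 < a₁) (h12 : a₁ < a₂) :
    @CompleteSpace (QZ T a₁ a₂ o) (qzMetric h1 h12).toUniformSpace := by
  let _ := qzMetric (T := T) (o := o) h1 h12
  refine Metric.complete_of_cauchySeq_tendsto fun u hu => ?_
  obtain ⟨N, hN⟩ := Metric.cauchySeq_iff'.1 hu a₁ h1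
  cases hN0 : u N with
  | pt i =>
    refine ⟨u N, ?_⟩
    refine tendsto_const_nhds.congr' ?_
    filter_upwards [Filter.eventually_ge_atTop N] with n hn
    have h := hN n hn
    rw [hN0] at h ⊢
    cases hun : u n with
    | pt j =>
      rw [hun] at h
      by_cases hji : j = i
      · rw [hji]
      · change (if j = i then 0 else a₁ : ℝ) < a₁ at h
        rw [if_neg hji] at h
        exact absurd h (lt_irrefl _)
    | mk p =>
      rw [hun] at h
      change max a₂ (dist p o) < a₁ at h
      linarith [le_max_left a₂ (dist p o)]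
  | mk p0 =>
    have h : ∀ n, ∃ p : T, u (n + N) = .mk p := by
      intro n
      have h := hN (n + N) (by omega)
      rw [hN0] at h
      cases hun : u (n + N) with
      | pt j =>
        rw [hun] at h
        change max a₂ (dist p0 o) < a₁ at h
        linarith [le_max_left a₂ (dist p0 o)]
      | mk p => exact ⟨p, rfl⟩
    choose v hv using h
    have hdist : ∀ n m, dist (v n) (v m) = dist (u (n + N)) (u (m + N)) := by
      intro n m
      rw [hv, hv]
      rfl
    have hc : CauchySeq v := by
      rw [Metric.cauchySeq_iff]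
      intro ε hε
      obtain ⟨M, hM⟩ := Metric.cauchySeq_iff.1 hu ε hε
      refine ⟨M, fun m hm n hn' => ?_⟩
      rw [hdist]
      exact hM (m + N) (by omega) (n + N) (by omega)
    obtain ⟨z, hz⟩ := cauchySeq_tendsto_of_complete hc
    refine ⟨.mk z, ?_⟩
    rw [← Filter.tendsto_add_atTop_iff_nat N]
    rw [Metric.tendsto_atTop] at hz ⊢
    intro ε hε
    obtain ⟨M, hM⟩ := hz ε hε
    refine ⟨M, fun n hn' => ?_⟩
    rw [hv]
    exact hM n hn'

theorem qz_separable [SeparableSpace T] (h1 : 0 < a₁) (h12 : a₁ < a₂) :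
    @SeparableSpace (QZ T a₁ a₂ o) (qzMetric h1 h12).toUniformSpace.toTopologicalSpace := by
  let _ := qzMetric (T := T) (o := o) h1 h12
  have hmk : Isometry (QZ.mk : T → QZ T a₁ a₂ o) := Isometry.of_dist_eq fun p q => rfl
  have hc : Continuous (Sum.elim QZ.pt QZ.mk : Bool ⊕ T → QZ T a₁ a₂ o) :=
    Continuous.sumElim continuous_of_discreteTopology hmk.continuous
  have hs : Function.Surjective (Sum.elim QZ.pt QZ.mk : Bool ⊕ T → QZ T a₁ a₂ o) := by
    rintro (i | p)
    · exact ⟨Sum.inl i, rfl⟩
    · exact ⟨Sum.inr p, rfl⟩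
  exact hs.denseRange.separableSpace hc

theorem gadget_of_space {A : Set ℝ} [CompleteSpace T] [SeparableSpace T] (o : T)
    (hT : ∀ r, (∃ x y : T, dist x y = r) ↔ r ∈ A) (h1 : 0 < a₁) (h12 : a₁ < a₂)
    (ha₁ : a₁ ∈ A) (ha₂ : a₂ ∈ A) (hst : ∀ p q : T, dist p q = a₁ → Chain a₁ p q) :
    Nonempty (Gadget A) := by
  let _ := qzMetric (T := T) (o := o) h1 h12
  have := qz_complete (T := T) (o := o) h1 h12
  have := qz_separable (T := T) (o := o) h1 h12
  have hmax : ∀ s t : ℝ, s ∈ A → t ∈ A → max s t ∈ A := by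
    intro s t hs ht
    rcases max_choice s t with h | h <;> rw [h] <;> assumption
  refine ⟨{ Z := QZ T a₁ a₂ o
            met := inferInstance
            compl := inferInstance
            sep := inferInstance
            a := a₁
            z0 := .pt false
            z1 := .pt true
            apos := h1
            d01 := by change (if false = true then 0 else a₁ : ℝ) = a₁; simp
            far0 := ?_
            far1 := ?_
            star := ?_
            dset := ?_ }⟩
  · intro p hp hq
    rcases p with i | p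
    · cases i
      · exact absurd rfl hp
      · exact absurd rfl hq
    · change a₁ < max a₂ (dist p o)
      exact lt_of_lt_of_le h12 (le_max_left _ _)
  · intro p hp hq
    rcases p with i | p
    · cases i
      · exact absurd rfl hp
      · exact absurd rfl hq
    · change a₁ < max a₂ (dist p o)
      exact lt_of_lt_of_le h12 (le_max_left _ _)
  · intro p q hp hp' hq hq' h
    rcases p with i | p
    · cases i
      · exact absurd rfl hp
      · exact absurd rfl hp'
    · rcases q with i | q
      · cases i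
        · exact absurd rfl hq
        · exact absurd rfl hq'
      · exact Chain.map (QZ.mk : T → QZ T a₁ a₂ o) (fun u v huv => huv) (hst p q h)
  · intro r
    constructor
    · rintro ⟨p, q, rfl⟩
      have h0 : (0 : ℝ) ∈ A := (hT 0).1 ⟨o, o, dist_self _⟩
      rcases p with i | p <;> rcases q with j | q
      · change (if i = j then 0 else a₁ : ℝ) ∈ A
        split_ifs
        · exact h0
        · exact ha₁
      · exact hmax _ _ ha₂ ((hT _).1 ⟨q, o, rfl⟩)
      · exact hmax _ _ ha₂ ((hT _).1 ⟨p, o, rfl⟩)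
      · exact (hT _).1 ⟨p, q, rfl⟩
    · intro hr
      obtain ⟨p, q, hpq⟩ := (hT r).2 hr
      exact ⟨.mk p, .mk q, hpq⟩

end uncountable

/-- every distance set other than `{0}` has a gadget -/
theorem exists_gadget {A : Set ℝ} (T : Type) [MetricSpace T] [CompleteSpace T] [SeparableSpace T]
    [Nonempty T] (hT : ∀ r, (∃ x y : T, dist x y = r) ↔ r ∈ A) (hA : ∃ r ∈ A, r ≠ 0) :
    Nonempty (Gadget A) := by
  have hnn : ∀ r ∈ A, 0 ≤ r := by
    intro r hr
    obtain ⟨x, y, rfl⟩ := (hT r).2 hr
    exact dist_nonneg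
  obtain ⟨o⟩ := (inferInstance : Nonempty T)
  have h0 : (0 : ℝ) ∈ A := (hT 0).1 ⟨o, o, dist_self _⟩
  by_cases hc : A.Countable
  · obtain ⟨r, hr, hr0⟩ := hA
    have hrpos : 0 < r := lt_of_le_of_ne (hnn r hr) (Ne.symm hr0)
    by_cases hs : ∃ s ∈ A, s ≠ 0 ∧ s ≠ r
    · obtain ⟨s, hs, hs0, hsr⟩ := hs
      have hspos : 0 < s := lt_of_le_of_ne (hnn s hs) (Ne.symm hs0)
      rcases lt_or_gt_of_ne hsr with h | h
      · exact gadget_countable hc h0 hnn hspos hs h (fun _ _ _ _ => hr)
      · exact gadget_countable hc h0 hnn hrpos hr h (fun _ _ _ _ => hs)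
    · push Not at hs
      exact gadget_countable (a₂ := r + 1) hc h0 hnn hrpos hr (by linarith)
        (fun b hb hb0 hbr => absurd (hs b hb hb0) hbr)
  · set J := {t : ℝ | ∃ p q : T, dist p q = t ∧ ¬ Chain t p q} with hJ
    have hJc : J.Countable := countable_jumps T
    have hmaxc : {t : ℝ | t ∈ A ∧ ∀ b ∈ A, b ≤ t}.Countable := by
      apply Set.Subsingleton.countable
      intro s hs t ht
      exact le_antisymm (ht.2 s hs.1) (hs.2 t ht.1)
    have : ∃ a₁ ∈ A, a₁ ∉ J ∪ ({0} ∪ {t : ℝ | t ∈ A ∧ ∀ b ∈ A, b ≤ t}) := by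
      by_contra hcon
      push Not at hcon
      exact hc ((hJc.union ((Set.countable_singleton _).union hmaxc)).mono hcon)
    obtain ⟨a₁, ha₁, hna⟩ := this
    simp only [Set.mem_union, Set.mem_singleton_iff, Set.mem_ofPred_eq, not_or, not_and,
      not_forall, not_le] at hna
    obtain ⟨hnJ, hne0, hmx⟩ := hna
    obtain ⟨a₂, ha₂, h12⟩ := hmx ha₁
    have h1 : 0 < a₁ := lt_of_le_of_ne (hnn _ ha₁) (Ne.symm hne0)
    refine gadget_of_space o hT h1 h12 ha₁ ha₂ fun p q hpq => ?_
    by_contra hch
    exact hnJ ⟨p, q, hpq, hch⟩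

end PolishDist
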