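import Mathlib

namespace PolishDist

/-- Two fixed point free involutions have a common proper 2-colouring. -/
theorem exists_two_colouring {Q : Type*} (σ τ : Q → Q) (hσ : ∀ q, σ (σ q) = q)
    (hτ : ∀ q, τ (τ q) = q) (hσ' : ∀ q, σ q ≠ q) (hτ' : ∀ q, τ q ≠ q) :
    ∃ χ : Q → Prop, (∀ q, χ (σ q) ↔ ¬ χ q) ∧ (∀ q, χ (τ q) ↔ ¬ χ q) := by
  classical
  let s : Equiv.Perm Q := ⟨σ, σ, hσ, hσ⟩
  let t : Equiv.Perm Q := ⟨τ, τ, hτ, hτ⟩
  have hs : s * s = 1 := by ext q; exact hσ q
  have ht : t * t = 1 := by ext q; exact hτ q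
  have hsi : s⁻¹ = s := inv_eq_of_mul_eq_one_left hs
  have hti : t⁻¹ = t := inv_eq_of_mul_eq_one_left ht
  let ρ : Equiv.Perm Q := s * t
  have hρi : ρ⁻¹ = t * s := by simp [ρ, mul_inv_rev, hsi, hti]
  have hconj : s * ρ * s⁻¹ = ρ⁻¹ := by
    rw [hρi, hsi]
    simp only [ρ]
    rw [← mul_assoc, hs, one_mul]
  have hpow : ∀ n : ℤ, s * ρ ^ n = ρ ^ (-n) * s := by
    intro n
    have h : s * ρ ^ n * s⁻¹ = ρ ^ (-n) := by
      rw [← conj_zpow, hconj, inv_zpow, zpow_neg]
    rw [← h]
    simp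
  have hsρ : s * ρ = t := by
    simp only [ρ]
    rw [← mul_assoc, hs, one_mul]
  -- the classes
  let S := Equiv.Perm.SameCycle.setoid ρ
  let c : Q → Quotient S := fun q => Quotient.mk S q
  have hc : ∀ q q', c q = c q' ↔ ∃ i : ℤ, (ρ ^ i) q = q' := by
    intro q q'
    exact Quotient.eq (r := S)
  have hcs : ∀ q q', c q = c q' → c (s q) = c (s q') := by
    intro q q' h
    obtain ⟨i, hi⟩ := (hc q q').1 h
    refine (hc _ _).2 ⟨-i, ?_⟩
    have := congrArg (fun e : Equiv.Perm Q => e q) (hpow i)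
    simp only [Equiv.Perm.mul_apply] at this
    rw [← this, hi]
  have hne : ∀ q, c q ≠ c (s q) := by
    intro q h
    obtain ⟨i, hi⟩ := (hc _ _).1 h
    rcases Int.even_or_odd' i with ⟨l, hl | hl⟩
    · apply hσ' ((ρ ^ l) q)
      have h1 := congrArg (fun e : Equiv.Perm Q => e q) (hpow l)
      simp only [Equiv.Perm.mul_apply] at h1
      change s ((ρ ^ l) q) = _
      rw [h1, ← hi, ← Equiv.Perm.mul_apply, ← zpow_add]
      congr 2
      omega
    · apply hτ' ((ρ ^ l) q)
      change t ((ρ ^ l) q) = _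
      have h1 := congrArg (fun e : Equiv.Perm Q => e q) (hpow (l + 1))
      simp only [Equiv.Perm.mul_apply] at h1
      have h2 : t ((ρ ^ l) q) = s ((ρ ^ (l + 1)) q) := by
        rw [← hsρ, Equiv.Perm.mul_apply, ← Equiv.Perm.mul_apply ρ, ← zpow_one_add, add_comm]
      rw [h2, h1, ← hi, ← Equiv.Perm.mul_apply, ← zpow_add]
      congr 2
      omega
  have hct : ∀ q, c (t q) = c (s q) := by
    intro q
    have : t q = s (ρ q) := by rw [← hsρ]; rfl
    rw [this]
    apply hcs
    exact (hc _ _).2 ⟨-1, by simp⟩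
  have hcst : ∀ q, c (s (t q)) = c q := by
    intro q
    refine (hc _ _).2 ⟨-1, ?_⟩
    have : s (t q) = ρ q := rfl
    rw [this]
    simp
  refine ⟨fun q => WellOrderingRel (c q) (c (s q)), ?_, ?_⟩
  · intro q
    change WellOrderingRel (c (s q)) (c (s (s q))) ↔ _
    have h1 : s (s q) = q := hσ q
    rw [h1]
    constructor
    · intro h h'
      exact asymm_of WellOrderingRel h h'
    · intro h
      rcases trichotomous_of WellOrderingRel (c q) (c (s q)) with h' | h' | h'
      · exact absurd h' h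
      · exact absurd h' (hne q)
      · exact h'
  · intro q
    change WellOrderingRel (c (t q)) (c (s (t q))) ↔ _
    rw [hct, hcst]
    constructor
    · intro h h'
      exact asymm_of WellOrderingRel h h'
    · intro h
      rcases trichotomous_of WellOrderingRel (c q) (c (s q)) with h' | h' | h'
      · exact absurd h' h
      · exact absurd h' (hne q)
      · exact h'

end PolishDist
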