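import Pool.Agent.Work.MP_c48b3b_lc.Chain

namespace PolishDist

open TopologicalSpace Metric

/-- A gadget for the distance set `A`. -/
structure Gadget (A : Set ℝ) where
  Z : Type
  met : MetricSpace Z
  compl : CompleteSpace Z
  sep : SeparableSpace Z
  a : ℝ
  z0 : Z
  z1 : Z
  apos : 0 < a
  d01 : dist z0 z1 = a
  far0 : ∀ p, p ≠ z0 → p ≠ z1 → a < dist z0 p
  far1 : ∀ p, p ≠ z0 → p ≠ z1 → a < dist z1 p
  star : ∀ p q, p ≠ z0 → p ≠ z1 → q ≠ z0 → q ≠ z1 → dist p q = a → Chain a p q
  dset : ∀ r, (∃ x y : Z, dist x y = r) ↔ r ∈ A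

attribute [instance] Gadget.met Gadget.compl Gadget.sep

variable {A : Set ℝ} (G : Gadget A)

/-- countably many copies of `Z`, far apart -/
structure WSp where
  n : ℕ
  z : G.Z

variable {G}

/-- norm in the gadget -/
noncomputable def nrm (z : G.Z) : ℝ := dist G.z0 z

theorem nrm_nonneg (z : G.Z) : 0 ≤ nrm z := dist_nonneg

theorem nrm_le (z w : G.Z) : nrm z ≤ nrm w + dist w z := dist_triangle _ _ _

theorem dist_le_nrm (z w : G.Z) : dist z w ≤ nrm z + nrm w := by
  unfold nrm
  rw [dist_comm G.z0 z]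
  exact dist_triangle _ _ _

namespace WSp

noncomputable instance : Dist (WSp G) :=
  ⟨fun p q => if p.n = q.n then dist p.z q.z else max G.a (max (nrm p.z) (nrm q.z))⟩

theorem dist_def (p q : WSp G) :
    dist p q = if p.n = q.n then dist p.z q.z else max G.a (max (nrm p.z) (nrm q.z)) := rfl

theorem dist_of_eq {p q : WSp G} (h : p.n = q.n) : dist p q = dist p.z q.z := by
  rw [dist_def, if_pos h]

theorem dist_of_ne {p q : WSp G} (h : p.n ≠ q.n) :
    dist p q = max G.a (max (nrm p.z) (nrm q.z)) := by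
  rw [dist_def, if_neg h]

noncomputable instance : MetricSpace (WSp G) where
  dist_self p := by rw [dist_of_eq rfl, dist_self]
  dist_comm p q := by
    by_cases h : p.n = q.n
    · rw [dist_of_eq h, dist_of_eq h.symm, dist_comm]
    · rw [dist_of_ne h, dist_of_ne (Ne.symm h), max_comm (nrm p.z)]
  dist_triangle p q r := by
    have ha := G.apos
    have h1 := dist_triangle p.z q.z r.z
    have h2 := nrm_le p.z q.z
    have h3 := nrm_le r.z q.z
    have h4 := dist_le_nrm p.z r.z
    have h5 := nrm_nonneg p.z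
    have h6 := nrm_nonneg q.z
    have h7 := nrm_nonneg r.z
    have h8 := nrm_le q.z p.z
    have h9 := nrm_le q.z r.z
    have h10 : dist q.z p.z = dist p.z q.z := dist_comm _ _
    have h11 : dist r.z q.z = dist q.z r.z := dist_comm _ _
    have h12 : 0 ≤ dist p.z q.z := dist_nonneg
    have h13 : 0 ≤ dist q.z r.z := dist_nonneg
    simp only [dist_def]
    by_cases e1 : p.n = q.n <;> by_cases e2 : q.n = r.n
    · rw [if_pos e1, if_pos e2, if_pos (e1.trans e2)]
      exact h1
    · rw [if_pos e1, if_neg e2, if_neg (fun h => e2 (e1.symm.trans h))]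
      refine max_le ?_ (max_le ?_ ?_)
      · linarith [le_max_left G.a (max (nrm q.z) (nrm r.z))]
      · linarith [le_max_right G.a (max (nrm q.z) (nrm r.z)), le_max_left (nrm q.z) (nrm r.z)]
      · linarith [le_max_right G.a (max (nrm q.z) (nrm r.z)), le_max_right (nrm q.z) (nrm r.z)]
    · rw [if_neg e1, if_pos e2, if_neg (fun h => e1 (h.trans e2.symm))]
      refine max_le ?_ (max_le ?_ ?_)
      · linarith [le_max_left G.a (max (nrm p.z) (nrm q.z))]
      · linarith [le_max_right G.a (max (nrm p.z) (nrm q.z)), le_max_left (nrm p.z) (nrm q.z)]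
      · linarith [le_max_right G.a (max (nrm p.z) (nrm q.z)), le_max_right (nrm p.z) (nrm q.z)]
    · rw [if_neg e1, if_neg e2]
      have k1 := le_max_left G.a (max (nrm p.z) (nrm q.z))
      have k2 := le_max_left G.a (max (nrm q.z) (nrm r.z))
      have k3 := (le_max_left (nrm p.z) (nrm q.z)).trans (le_max_right G.a _)
      have k4 := (le_max_right (nrm q.z) (nrm r.z)).trans (le_max_right G.a _)
      split_ifs
      · linarith
      · refine max_le ?_ (max_le ?_ ?_) <;> linarith
  eq_of_dist_eq_zero := by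
    intro p q h
    by_cases e : p.n = q.n
    · rw [dist_of_eq e] at h
      cases p; cases q
      simp only at e
      subst e
      congr
      exact eq_of_dist_eq_zero h
    · rw [dist_of_ne e] at h
      have := le_max_left G.a (max (nrm p.z) (nrm q.z))
      linarith [G.apos]

theorem n_eq_of_dist_lt {p q : WSp G} (h : dist p q < G.a) : p.n = q.n := by
  by_contra e
  rw [dist_of_ne e] at h
  exact absurd (le_max_left _ _) (not_le.2 h)

theorem mk_isometry (n : ℕ) : Isometry (fun z : G.Z => (⟨n, z⟩ : WSp G)) :=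
  Isometry.of_dist_eq fun z w => dist_of_eq (p := ⟨n, z⟩) (q := ⟨n, w⟩) rfl

instance : SeparableSpace (WSp G) := by
  have hc : Continuous (fun p : ℕ × G.Z => (⟨p.1, p.2⟩ : WSp G)) := by
    rw [continuous_prod_of_discrete_left]
    intro n
    exact (mk_isometry n).continuous
  have hs : Function.Surjective (fun p : ℕ × G.Z => (⟨p.1, p.2⟩ : WSp G)) :=
    fun p => ⟨(p.n, p.z), rfl⟩
  exact hs.denseRange.separableSpace hc

instance : CompleteSpace (WSp G) := by
  refine Metric.complete_of_cauchySeq_tendsto fun u hu => ?_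
  obtain ⟨N, hN⟩ := Metric.cauchySeq_iff'.1 hu G.a G.apos
  have hn : ∀ n ≥ N, (u n).n = (u N).n := fun n hn => n_eq_of_dist_lt (hN n hn)
  have hc : CauchySeq (fun n => (u (n + N)).z) := by
    rw [Metric.cauchySeq_iff]
    intro ε hε
    obtain ⟨M, hM⟩ := Metric.cauchySeq_iff.1 hu ε hε
    refine ⟨M, fun m hm n hn' => ?_⟩
    have := hM (m + N) (by omega) (n + N) (by omega)
    rwa [dist_of_eq ((hn _ (by omega)).trans (hn _ (by omega)).symm)] at this
  obtain ⟨z, hz⟩ := cauchySeq_tendsto_of_complete hc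
  refine ⟨⟨(u N).n, z⟩, ?_⟩
  rw [← Filter.tendsto_add_atTop_iff_nat N]
  rw [Metric.tendsto_atTop] at hz ⊢
  intro ε hε
  obtain ⟨M, hM⟩ := hz ε hε
  refine ⟨M, fun n hn' => ?_⟩
  rw [dist_of_eq (p := u (n + N)) (q := ⟨(u N).n, z⟩) (hn _ (by omega))]
  exact hM n hn'

end WSp

end PolishDist
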